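import Pool.Agent.H45.Urn

set_option autoImplicit false

open Pool.Agent.H45.Chain Pool.Agent.H45.Urn
open scoped NNReal

namespace Pool.Agent.Results.MP_0b3b8e_pr.NoMonopoly

/-- Two fully interacting urns with a strong reinforcement sequence for which monopoly has
probability less than one. -/
theorem result : ∃ (W : ℕ → ℝ≥0) (s₀ : Fin 2 → ℕ × ℕ),
    (∀ n, 0 < W n) ∧ Summable (fun n : ℕ => 1 / (W (n + 1) : ℝ)) ∧ 1 ≤ black s₀ + red s₀ ∧
    pathLaw (urnKernel 2 W) s₀ (monopoly 2) < 1 :=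
  ⟨Wt, s0, Wt_pos, Wt_summable, by simp [black, red, s0], no_monopoly⟩

end Pool.Agent.Results.MP_0b3b8e_pr.NoMonopoly
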